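import Mathlib
import Pool.Agent.Helper889.Hn.Large
import Pool.Agent.Helper889.Hn.HL

set_option autoImplicit false

namespace Pool.Agent.Results.MP_047434_al.NonAmenableLarge

/-! ### Definitions -/

/-- The automorphism `a_{ij}` of the rooted `k`-ary tree (vertices are finite words): it fixes the
empty word, `a_{ij}(iw) = jw`, `a_{ij}(jw) = iw`, and `a_{ij}(xw) = x a_{ij}(w)` for `x ∉ {i, j}`. -/
def a {k : ℕ} (i j : Fin k) : List (Fin k) → List (Fin k)
  | [] => []
  | x :: w => if x = i then j :: w else if x = j then i :: w else x :: a i j w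

theorem a_invol {k : ℕ} (i j : Fin k) : Function.Involutive (a i j) := by
  intro w
  induction w with
  | nil => rfl
  | cons x w ih =>
    by_cases h1 : x = i
    · subst h1
      by_cases h2 : j = x
      · subst h2; simp [a]
      · simp [a, h2]
    · by_cases h2 : x = j
      · subst h2; simp [a, h1]
      · simp [a, h1, h2, ih]

/-- `a_{ij}` as a permutation of the vertices of the tree -/
def aPerm {k : ℕ} (i j : Fin k) : Equiv.Perm (List (Fin k)) := (a_invol i j).toPerm

/-- The Hanoi towers group on `k` pegs, generated by the `a_{ij}` with `i < j`. -/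
def Hanoi (k : ℕ) : Subgroup (Equiv.Perm (List (Fin k))) :=
  Subgroup.closure {g | ∃ i j : Fin k, i < j ∧ g = aPerm i j}

/-- A left invariant mean (finitely additive probability measure on all subsets) on the group `M`. -/
def IsMean {M : Type} [Group M] (m : Set M → ℝ) : Prop :=
  (∀ A, 0 ≤ m A) ∧ m Set.univ = 1 ∧ (∀ A B, Disjoint A B → m (A ∪ B) = m A + m B) ∧
    ∀ (g : M) A, m ((fun x => g * x) '' A) = m A

/-! ### Proof -/

open Pool.Agent.Helper889.Hn in
theorem a_eq {k : ℕ} (i j : Fin k) (w : List (Fin k)) : a i j w = HL.a i j w := by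
  induction w with
  | nil => rfl
  | cons x w ih => simp only [a, HL.a, ih]

open Pool.Agent.Helper889.Hn in
theorem aPerm_eq {k : ℕ} (i j : Fin k) : aPerm i j = HL.aPerm i j := by
  ext1 w
  exact a_eq i j w

open Pool.Agent.Helper889.Hn in
theorem Hanoi_eq (k : ℕ) : Hanoi k = HL.Hanoi k := by
  unfold Hanoi HL.Hanoi
  congr 1
  ext g
  constructor
  · rintro ⟨i, j, h, rfl⟩
    exact ⟨i, j, h, aPerm_eq i j⟩
  · rintro ⟨i, j, h, rfl⟩
    exact ⟨i, j, h, (aPerm_eq i j).symm⟩

open Pool.Agent.Helper889.Hn in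
/-- For all sufficiently large `k`, the Hanoi towers group on `k` pegs is not amenable. -/
theorem result : ∃ K : ℕ, ∀ k : ℕ, K ≤ k → ¬ ∃ m : Set (Hanoi k) → ℝ, IsMean m := by
  obtain ⟨K, hK⟩ := hanoi_no_mean_large
  refine ⟨K, fun k hk => ?_⟩
  rw [Hanoi_eq]
  intro h
  obtain ⟨φ, hφ⟩ := HL.Hanoi_to_HK k
  exact hK k hk (Pool.Agent.Helper889.Nc.mean_of_surjective φ hφ h)

end Pool.Agent.Results.MP_047434_al.NonAmenableLarge
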